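import Mathlib

/-!
# Cyclic `(v, k, k - 1)`-designs without disjoint orbit representatives (MP_1dd1a8_co)

For every odd prime `k` and every prime `p > k` there is a cyclic `(k p, k, k - 1)`-design which has
no system of disjoint representatives of its block orbits.  The design consists of the `p - 1` full
block orbits of the blocks `{(j ^ 2, x j) : j}` with `x ≠ 0` (in `ℤ_{k p} = ℤ_k × ℤ_p`) and of
`k - 1` copies of the short block orbit of the subgroup of order `k`; these `p + k - 2` block orbits
would need `k (p + k - 2) > k p` points.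
-/

set_option autoImplicit false

namespace Pool.Agent.Results.MP_1dd1a8_co.ShortOrbits

open Finset

/-- The translate `B + t` of a set `B ⊆ ℤ_v`. -/
def translate {v : ℕ} (t : ZMod v) (B : Finset (ZMod v)) : Finset (ZMod v) :=
  B.image (fun b => b + t)

/-- The translation orbit `{B + t : t ∈ ℤ_v}` of a set `B ⊆ ℤ_v`. -/
def orbit {v : ℕ} [NeZero v] (B : Finset (ZMod v)) : Finset (Finset (ZMod v)) :=
  univ.image (fun t : ZMod v => translate t B)

/-- `𝓑` is a cyclic `(v, k, lam)`-design: a finite multiset of `k`-subsets of `ℤ_v` such that every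
pair of distinct points lies in exactly `lam` blocks, counted with multiplicity, and such that `B`
and `B + t` have the same multiplicity in `𝓑`, for every set `B` and every `t`. -/
structure IsCyclicDesign (v k lam : ℕ) (𝓑 : Multiset (Finset (ZMod v))) : Prop where
  card_eq : ∀ B ∈ 𝓑, B.card = k
  pair : ∀ x y : ZMod v, x ≠ y → 𝓑.countP (fun B => x ∈ B ∧ y ∈ B) = lam
  count_translate : ∀ (B : Finset (ZMod v)) (t : ZMod v), 𝓑.count (translate t B) = 𝓑.count B

/-- The block orbits of `𝓑`: the pairs `(O, i)` where `O` is the translation orbit of a block and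
`i < m_O` numbers the copies of `O`; here `m_O` is the common multiplicity in `𝓑` of the members
of `O`. -/
def IsBlockOrbit {v : ℕ} [NeZero v] (𝓑 : Multiset (Finset (ZMod v)))
    (q : Finset (Finset (ZMod v)) × ℕ) : Prop :=
  ∃ B ∈ 𝓑, q.1 = orbit B ∧ q.2 < 𝓑.count B

/-- A system of disjoint representatives: a choice of one block from each block orbit such that the
blocks chosen from different block orbits are disjoint. -/
def HasDisjointRepresentatives {v : ℕ} [NeZero v] (𝓑 : Multiset (Finset (ZMod v))) : Prop :=
  ∃ R : Finset (Finset (ZMod v)) × ℕ → Finset (ZMod v),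
    (∀ q, IsBlockOrbit 𝓑 q → R q ∈ q.1) ∧
    ∀ q q', IsBlockOrbit 𝓑 q → IsBlockOrbit 𝓑 q' → q ≠ q' → Disjoint (R q) (R q')

/-! ### Translates -/

section Translate

variable {v : ℕ}

lemma mem_translate {t x : ZMod v} {B : Finset (ZMod v)} :
    x ∈ translate t B ↔ x - t ∈ B := by
  unfold translate
  rw [mem_image]
  constructor
  · rintro ⟨b, hb, rfl⟩
    simpa using hb
  · intro h
    exact ⟨x - t, h, by ring⟩

lemma translate_translate (s t : ZMod v) (B : Finset (ZMod v)) :
    translate s (translate t B) = translate (t + s) B := by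
  ext x
  simp only [mem_translate]
  rw [show x - s - t = x - (t + s) by ring]

lemma translate_injective (t : ZMod v) : Function.Injective (translate t) := by
  intro B C h
  ext x
  have : x + t ∈ translate t B ↔ x + t ∈ translate t C := by rw [h]
  simpa [mem_translate] using this

lemma card_translate (t : ZMod v) (B : Finset (ZMod v)) : (translate t B).card = B.card :=
  card_image_of_injective _ (add_left_injective t)

lemma translate_zero (B : Finset (ZMod v)) : translate 0 B = B := by
  ext x; simp [mem_translate]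

variable [NeZero v]

lemma mem_orbit {B C : Finset (ZMod v)} : C ∈ orbit B ↔ ∃ t, translate t B = C := by
  simp [orbit]

lemma self_mem_orbit (B : Finset (ZMod v)) : B ∈ orbit B :=
  mem_orbit.2 ⟨0, translate_zero B⟩

end Translate


/-! ### The construction -/

section Construction

variable (k p : ℕ) [hk : Fact k.Prime] [hp : Fact p.Prime]

instance instNeZeroMul : NeZero (k * p) := ⟨Nat.mul_ne_zero hk.out.ne_zero hp.out.ne_zero⟩

variable {k p}

/-- the isomorphism `ℤ_{k p} ≃ ℤ_k × ℤ_p` -/
noncomputable def crt (h : k < p) : ZMod (k * p) ≃+* ZMod k × ZMod p :=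
  ZMod.chineseRemainder ((Nat.coprime_primes hk.out hp.out).2 h.ne)

/-- the block `{(j ^ 2, x j) : j}` -/
noncomputable def blk (h : k < p) (x : ZMod p) : Finset (ZMod (k * p)) :=
  (univ : Finset (ZMod k)).image (fun j => (crt h).symm (j ^ 2, x * (j.val : ZMod p)))

/-- the coset `ℤ_k × {t}` of the subgroup of order `k` -/
noncomputable def col (h : k < p) (t : ZMod p) : Finset (ZMod (k * p)) :=
  (univ : Finset (ZMod k)).image (fun i => (crt h).symm (i, t))

/-- the pairs of a nonzero multiplier and a translation -/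
noncomputable def idx (k p : ℕ) [Fact k.Prime] [Fact p.Prime] :
    Finset (ZMod p × ZMod (k * p)) :=
  (univ.filter (fun x : ZMod p => x ≠ 0)) ×ˢ univ

/-- the design -/
noncomputable def design (h : k < p) : Multiset (Finset (ZMod (k * p))) :=
  (idx k p).val.map (fun y => translate y.2 (blk h y.1)) +
    (k - 1) • (univ : Finset (ZMod p)).val.map (col h)

lemma cast_val_inj (h : k < p) {j j' : ZMod k} (hj : (j.val : ZMod p) = (j'.val : ZMod p)) :
    j = j' := by
  have h1 := congrArg ZMod.val hj
  rw [ZMod.val_natCast, ZMod.val_natCast, Nat.mod_eq_of_lt ((ZMod.val_lt j).trans h),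
    Nat.mod_eq_of_lt ((ZMod.val_lt j').trans h)] at h1
  exact ZMod.val_injective k h1

lemma mem_blk (h : k < p) {x : ZMod p} {P : ZMod (k * p)} :
    P ∈ blk h x ↔ ∃ j : ZMod k, (crt h P).1 = j ^ 2 ∧ (crt h P).2 = x * (j.val : ZMod p) := by
  unfold blk
  rw [mem_image]
  constructor
  · rintro ⟨j, -, rfl⟩
    exact ⟨j, by simp⟩
  · rintro ⟨j, h1, h2⟩
    refine ⟨j, mem_univ _, ?_⟩
    rw [RingEquiv.symm_apply_eq]
    exact Prod.ext h1.symm h2.symm

lemma mem_col (h : k < p) {t : ZMod p} {P : ZMod (k * p)} :
    P ∈ col h t ↔ (crt h P).2 = t := by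
  unfold col
  rw [mem_image]
  constructor
  · rintro ⟨j, -, rfl⟩
    simp
  · intro h2
    refine ⟨(crt h P).1, mem_univ _, ?_⟩
    rw [RingEquiv.symm_apply_eq]
    exact Prod.ext rfl h2.symm

lemma card_blk (h : k < p) {x : ZMod p} (hx : x ≠ 0) : (blk h x).card = k := by
  unfold blk
  rw [card_image_of_injective, card_univ, ZMod.card]
  intro j j' hj
  have h1 := (crt h).symm.injective hj
  have h2 := (Prod.ext_iff.1 h1).2
  exact cast_val_inj h (mul_left_cancel₀ hx h2)

lemma card_col (h : k < p) (t : ZMod p) : (col h t).card = k := by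
  unfold col
  rw [card_image_of_injective, card_univ, ZMod.card]
  intro j j' hj
  have h1 := (crt h).symm.injective hj
  exact (Prod.ext_iff.1 h1).1

lemma two_ne_zero' (h2 : k ≠ 2) : (2 : ZMod k) ≠ 0 := by
  intro h0
  have : ((2 : ℕ) : ZMod k) = 0 := by exact_mod_cast h0
  rw [ZMod.natCast_eq_zero_iff] at this
  exact h2 ((Nat.prime_dvd_prime_iff_eq hk.out Nat.prime_two).1 this)

/-- the number of solutions of `j ^ 2 - j' ^ 2 = d`, `j ≠ j'` -/
lemma card_sq_sub (h2 : k ≠ 2) (d : ZMod k) :
    ((univ : Finset (ZMod k × ZMod k)).filter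
      (fun q => q.1 ≠ q.2 ∧ q.1 ^ 2 - q.2 ^ 2 = d)).card = k - 1 := by
  have h20 := two_ne_zero' (k := k) h2
  have e1 : ((univ : Finset (ZMod k)).filter (fun u => u ≠ 0)).card = k - 1 := by
    rw [filter_ne', card_erase_of_mem (mem_univ _), card_univ, ZMod.card]
  rw [← e1]
  refine card_nbij' (fun q => q.1 - q.2) (fun u => ((u + d / u) / 2, (d / u - u) / 2)) ?_ ?_ ?_ ?_
  · intro q hq
    simp only [coe_filter, mem_univ, true_and, Set.mem_ofPred_eq] at hq ⊢
    exact sub_ne_zero.2 hq.1
  · intro u hu
    simp only [coe_filter, mem_univ, true_and, Set.mem_ofPred_eq] at hu ⊢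
    constructor
    · intro h0
      apply hu
      field_simp at h0
      have : 2 * u ^ 2 = 0 := by linear_combination h0
      simpa [h20] using this
    · field_simp
      ring
  · intro q hq
    simp only [coe_filter, mem_univ, true_and, Set.mem_ofPred_eq] at hq
    have h0 : q.1 - q.2 ≠ 0 := sub_ne_zero.2 hq.1
    have h3 : d / (q.1 - q.2) = q.1 + q.2 := by
      rw [div_eq_iff h0, ← hq.2]; ring
    apply Prod.ext
    · simp only [h3]
      field_simp
      ring
    · simp only [h3]
      field_simp
      ring
  · intro u hu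
    simp only [coe_filter, mem_univ, true_and, Set.mem_ofPred_eq] at hu
    simp only
    field_simp
    ring

lemma countP_col (h : k < p) (P Q : ZMod (k * p)) :
    ((univ : Finset (ZMod p)).val.map (col h)).countP (fun B => P ∈ B ∧ Q ∈ B) =
      if (crt h P).2 = (crt h Q).2 then 1 else 0 := by
  rw [Multiset.countP_map]
  have e : Multiset.filter (fun t : ZMod p => P ∈ col h t ∧ Q ∈ col h t) (univ : Finset (ZMod p)).val
      = ((univ : Finset (ZMod p)).filter (fun t => P ∈ col h t ∧ Q ∈ col h t)).val := rfl
  rw [e, card_val]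
  split_ifs with h1
  · rw [card_eq_one]
    refine ⟨(crt h P).2, ?_⟩
    ext t
    simp only [mem_filter, mem_univ, true_and, mem_singleton, mem_col]
    constructor
    · rintro ⟨h2, -⟩; exact h2.symm
    · rintro rfl; exact ⟨rfl, h1.symm⟩
  · rw [card_eq_zero]
    ext t
    simp only [mem_filter, mem_univ, true_and, mem_col, notMem_empty, iff_false]
    rintro ⟨h2, h3⟩
    exact h1 (h2.trans h3.symm)

lemma countP_full (h : k < p) (h2 : k ≠ 2) {P Q : ZMod (k * p)} (hPQ : P ≠ Q) :
    ((idx k p).val.map (fun y => translate y.2 (blk h y.1))).countP (fun B => P ∈ B ∧ Q ∈ B) =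
      if (crt h P).2 = (crt h Q).2 then 0 else k - 1 := by
  rw [Multiset.countP_map]
  have e : Multiset.filter (fun y : ZMod p × ZMod (k * p) =>
      P ∈ translate y.2 (blk h y.1) ∧ Q ∈ translate y.2 (blk h y.1)) (idx k p).val
      = ((idx k p).filter (fun y => P ∈ translate y.2 (blk h y.1) ∧
          Q ∈ translate y.2 (blk h y.1))).val := rfl
  rw [e, card_val]
  split_ifs with h1
  · rw [card_eq_zero]
    ext ⟨x, g⟩
    simp only [idx, mem_filter, mem_product, mem_univ, true_and, and_true, mem_translate,
      mem_blk, map_sub, Prod.fst_sub, Prod.snd_sub, notMem_empty, iff_false]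
    rintro ⟨hx, ⟨j, a1, a2⟩, ⟨j', b1, b2⟩⟩
    have h3 : x * (j.val : ZMod p) = x * (j'.val : ZMod p) := by
      rw [← a2, ← b2, h1]
    have h4 : j = j' := cast_val_inj h (mul_left_cancel₀ hx h3)
    subst h4
    apply hPQ
    apply (crt h).injective
    apply Prod.ext
    · have := a1.trans b1.symm
      simpa using this
    · exact h1
  · rw [← card_sq_sub h2 ((crt h P).1 - (crt h Q).1)]
    symm
    have hy : (crt h P).2 - (crt h Q).2 ≠ 0 := sub_ne_zero.2 h1
    -- the multiplier attached to a pair
    set X : ZMod k × ZMod k → ZMod p := fun q =>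
      ((crt h P).2 - (crt h Q).2) / ((q.1.val : ZMod p) - (q.2.val : ZMod p)) with hX
    refine card_bij (fun q _ => (X q, P - (crt h).symm (q.1 ^ 2, X q * (q.1.val : ZMod p)))) ?_ ?_ ?_
    · rintro ⟨j, j'⟩ hq
      simp only [mem_filter, mem_univ, true_and] at hq
      have hne : (j.val : ZMod p) - (j'.val : ZMod p) ≠ 0 := by
        intro h0
        exact hq.1 (cast_val_inj h (sub_eq_zero.1 h0))
      have hX0 : X (j, j') ≠ 0 := div_ne_zero hy hne
      have hXm : X (j, j') * ((j.val : ZMod p) - (j'.val : ZMod p)) =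
          (crt h P).2 - (crt h Q).2 := div_mul_cancel₀ _ hne
      simp only [idx, mem_filter, mem_product, mem_univ, true_and, and_true, mem_translate,
        mem_blk]
      refine ⟨hX0, ⟨j, ?_, ?_⟩, ⟨j', ?_, ?_⟩⟩
      · simp
      · simp
      · have : Q - (P - (crt h).symm (j ^ 2, X (j, j') * (j.val : ZMod p))) =
            Q - P + (crt h).symm (j ^ 2, X (j, j') * (j.val : ZMod p)) := by ring
        rw [this, map_add, map_sub, RingEquiv.apply_symm_apply]
        simp only [Prod.fst_add, Prod.fst_sub]
        linear_combination hq.2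
      · have : Q - (P - (crt h).symm (j ^ 2, X (j, j') * (j.val : ZMod p))) =
            Q - P + (crt h).symm (j ^ 2, X (j, j') * (j.val : ZMod p)) := by ring
        rw [this, map_add, map_sub, RingEquiv.apply_symm_apply]
        simp only [Prod.snd_add, Prod.snd_sub]
        linear_combination hXm
    · rintro ⟨j, j'⟩ hq ⟨i, i'⟩ hq' heq
      simp only [mem_filter, mem_univ, true_and] at hq hq'
      simp only [Prod.mk.injEq, sub_right_inj] at heq
      obtain ⟨e1, e2⟩ := heq
      have e3 := (crt h).symm.injective e2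
      simp only [Prod.mk.injEq] at e3
      obtain ⟨e4, e5⟩ := e3
      have hne : (j.val : ZMod p) - (j'.val : ZMod p) ≠ 0 := by
        intro h0
        exact hq.1 (cast_val_inj h (sub_eq_zero.1 h0))
      have hne' : (i.val : ZMod p) - (i'.val : ZMod p) ≠ 0 := by
        intro h0
        exact hq'.1 (cast_val_inj h (sub_eq_zero.1 h0))
      have hX0 : X (j, j') ≠ 0 := div_ne_zero hy hne
      have hXm : X (j, j') * ((j.val : ZMod p) - (j'.val : ZMod p)) =
          (crt h P).2 - (crt h Q).2 := div_mul_cancel₀ _ hne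
      have hXm' : X (i, i') * ((i.val : ZMod p) - (i'.val : ZMod p)) =
          (crt h P).2 - (crt h Q).2 := div_mul_cancel₀ _ hne'
      rw [← e1] at e5 hXm'
      have e6 : j = i := cast_val_inj h (mul_left_cancel₀ hX0 e5)
      subst e6
      have e7 : (j'.val : ZMod p) = (i'.val : ZMod p) := by
        apply mul_left_cancel₀ hX0
        linear_combination hXm' - hXm
      rw [cast_val_inj h e7]
    · rintro ⟨x, g⟩ hy'
      simp only [idx, mem_filter, mem_product, mem_univ, true_and, and_true, mem_translate,
        mem_blk, map_sub, Prod.fst_sub, Prod.snd_sub] at hy'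
      obtain ⟨hx, ⟨j, a1, a2⟩, ⟨j', b1, b2⟩⟩ := hy'
      have hxm : x * ((j.val : ZMod p) - (j'.val : ZMod p)) = (crt h P).2 - (crt h Q).2 := by
        linear_combination b2 - a2
      have hne : (j.val : ZMod p) - (j'.val : ZMod p) ≠ 0 := by
        intro h0
        rw [h0, mul_zero] at hxm
        exact hy hxm.symm
      have hXx : X (j, j') = x := by
        simp only [hX]
        rw [← hxm, mul_div_cancel_right₀ _ hne]
      refine ⟨(j, j'), ?_, ?_⟩
      · simp only [mem_filter, mem_univ, true_and]
        constructor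
        · intro h0
          apply hne
          rw [h0, sub_self]
        · linear_combination b1 - a1
      · rw [hXx]
        simp only [Prod.mk.injEq, true_and]
        have : (crt h).symm (j ^ 2, x * (j.val : ZMod p)) = P - g := by
          rw [RingEquiv.symm_apply_eq, map_sub]
          exact Prod.ext a1.symm a2.symm
        rw [this]
        ring

lemma isCyclicDesign (h : k < p) (h2 : k ≠ 2) : IsCyclicDesign (k * p) k (k - 1) (design h) := by
  refine ⟨?_, ?_, ?_⟩
  · intro B hB
    unfold design at hB
    rw [Multiset.mem_add] at hB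
    rcases hB with hB | hB
    · rw [Multiset.mem_map] at hB
      obtain ⟨y, hy, rfl⟩ := hB
      rw [card_translate]
      apply card_blk h
      have : y ∈ idx k p := hy
      simp only [idx, mem_product, mem_filter, mem_univ, true_and, and_true] at this
      exact this
    · have hB' := Multiset.mem_of_mem_nsmul hB
      rw [Multiset.mem_map] at hB'
      obtain ⟨t, -, rfl⟩ := hB'
      exact card_col h t
  · intro P Q hPQ
    unfold design
    rw [Multiset.countP_add, Multiset.countP_nsmul, countP_full h h2 hPQ, countP_col h P Q]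
    split_ifs
    · simp
    · simp
  · intro B t
    have key : (design h).map (translate t) = design h := by
      unfold design
      rw [Multiset.map_add, Multiset.map_nsmul, Multiset.map_map, Multiset.map_map]
      congr 1
      · -- reindex the translations
        have e1 : (translate t ∘ fun y : ZMod p × ZMod (k * p) => translate y.2 (blk h y.1)) =
            (fun y : ZMod p × ZMod (k * p) => translate y.2 (blk h y.1)) ∘
              (Equiv.prodCongr (Equiv.refl (ZMod p)) (Equiv.addRight t)) := by
          funext y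
          simp [translate_translate]
        rw [e1, ← Multiset.map_map]
        congr 1
        have e2 : (idx k p).map
            (Equiv.prodCongr (Equiv.refl (ZMod p)) (Equiv.addRight t)).toEmbedding = idx k p := by
          ext ⟨x, g⟩
          simp only [idx, mem_map, mem_product, mem_filter, mem_univ, true_and, and_true,
            Equiv.coe_toEmbedding, Equiv.prodCongr_apply, Prod.exists, Prod.map_apply,
            Equiv.refl_apply, Equiv.coe_addRight, Prod.mk.injEq]
          constructor
          · rintro ⟨a, b, ha, rfl, -⟩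
            exact ha
          · intro hx
            exact ⟨x, g - t, hx, rfl, by ring⟩
        conv_rhs => rw [← e2]
        rfl
      · congr 1
        have e1 : (translate t ∘ col h) = col h ∘ (Equiv.addRight (crt h t).2) := by
          funext s
          ext P
          simp only [Function.comp_apply, mem_translate, mem_col, map_sub, Prod.snd_sub,
            Equiv.coe_addRight]
          exact sub_eq_iff_eq_add
        rw [e1, ← Multiset.map_map]
        congr 1
        have e2 : (univ : Finset (ZMod p)).map (Equiv.addRight (crt h t).2).toEmbedding = univ :=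
          map_univ_equiv _
        conv_rhs => rw [← e2]
        rfl
    conv_lhs => rw [← key]
    exact Multiset.count_map_eq_count' _ _ (translate_injective t) B

lemma blk_mem_design (h : k < p) {x : ZMod p} (hx : x ≠ 0) : blk h x ∈ design h := by
  unfold design
  rw [Multiset.mem_add]
  left
  rw [Multiset.mem_map]
  refine ⟨(x, 0), ?_, translate_zero _⟩
  have : (x, (0 : ZMod (k * p))) ∈ idx k p := by
    simp only [idx, mem_product, mem_filter, mem_univ, true_and, and_true]
    exact hx
  exact this

lemma le_count_col (h : k < p) : k - 1 ≤ (design h).count (col h 0) := by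
  unfold design
  rw [Multiset.count_add, Multiset.count_nsmul]
  have h1 : 1 ≤ Multiset.count (col h 0) ((univ : Finset (ZMod p)).val.map (col h)) := by
    rw [Multiset.one_le_count_iff_mem, Multiset.mem_map]
    exact ⟨0, mem_univ _, rfl⟩
  calc k - 1 = (k - 1) * 1 := (mul_one _).symm
    _ ≤ (k - 1) * Multiset.count (col h 0) ((univ : Finset (ZMod p)).val.map (col h)) :=
        Nat.mul_le_mul_left _ h1
    _ ≤ _ := Nat.le_add_left _ _

/-- Blocks of different multipliers are in different orbits. -/
lemma orbit_blk_inj (h : k < p) (h2 : k ≠ 2) {x x' : ZMod p} (hx : x ≠ 0)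
    (ho : orbit (blk h x) = orbit (blk h x')) : x = x' := by
  have h1 : blk h x ∈ orbit (blk h x') := ho ▸ self_mem_orbit _
  obtain ⟨t, ht⟩ := mem_orbit.1 h1
  have hk3 : 3 ≤ k := by
    have := hk.out.two_le
    omega
  have : Fact (1 < k) := ⟨by omega⟩
  have : Fact (1 < p) := ⟨by omega⟩
  have h20 := two_ne_zero' (k := k) h2
  -- membership of the points of `blk h x`
  have hmem : ∀ j : ZMod k, ∃ i : ZMod k, j ^ 2 = i ^ 2 + (crt h t).1 ∧
      x * (j.val : ZMod p) = x' * (i.val : ZMod p) + (crt h t).2 := by
    intro j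
    have hj : (crt h).symm (j ^ 2, x * (j.val : ZMod p)) ∈ blk h x := by
      rw [mem_blk]; exact ⟨j, by simp⟩
    rw [← ht, mem_translate, mem_blk] at hj
    obtain ⟨i, h3, h4⟩ := hj
    simp only [map_sub, RingEquiv.apply_symm_apply, Prod.fst_sub, Prod.snd_sub] at h3 h4
    exact ⟨i, by linear_combination h3, by linear_combination h4⟩
  have hmem' : ∀ i : ZMod k, ∃ j : ZMod k, j ^ 2 = i ^ 2 + (crt h t).1 ∧
      x * (j.val : ZMod p) = x' * (i.val : ZMod p) + (crt h t).2 := by
    intro i
    have hj : (crt h).symm (i ^ 2, x' * (i.val : ZMod p)) + t ∈ blk h x := by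
      rw [← ht, mem_translate, mem_blk]; exact ⟨i, by simp⟩
    rw [mem_blk] at hj
    obtain ⟨j, h3, h4⟩ := hj
    simp only [map_add, RingEquiv.apply_symm_apply, Prod.fst_add, Prod.snd_add] at h3 h4
    exact ⟨j, h3.symm, h4.symm⟩
  -- the layer of `0` has exactly one element
  have hs : (crt h t).1 = 0 := by
    obtain ⟨i, h3, h4⟩ := hmem 0
    by_contra hne
    have hi0 : i ≠ 0 := by
      rintro rfl
      apply hne
      linear_combination -h3
    obtain ⟨j, h5, h6⟩ := hmem' (-i)
    have h7 : j ^ 2 = 0 := by
      rw [h5]; linear_combination -h3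
    have h8 : j = 0 := by simpa using h7
    subst h8
    have h9 : x' * (i.val : ZMod p) = x' * ((-i).val : ZMod p) := by
      linear_combination h6 - h4
    have hx' : x' ≠ 0 := by
      rintro rfl
      obtain ⟨i0, h10, h11⟩ := hmem 0
      obtain ⟨i1, h12, h13⟩ := hmem 1
      have : x * ((1 : ZMod k).val : ZMod p) = x * ((0 : ZMod k).val : ZMod p) := by
        linear_combination h13 - h11
      have h14 := cast_val_inj h (mul_left_cancel₀ hx this)
      exact one_ne_zero h14
    have h10 : i = -i := cast_val_inj h (mul_left_cancel₀ hx' h9)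
    apply hi0
    have : 2 * i = 0 := by linear_combination h10
    simpa [h20] using this
  have ht0 : (crt h t).2 = 0 := by
    obtain ⟨i, h3, h4⟩ := hmem 0
    rw [hs] at h3
    have : i = 0 := by
      have : i ^ 2 = 0 := by linear_combination -h3
      simpa using this
    subst this
    simp only [ZMod.val_zero, Nat.cast_zero, mul_zero, zero_add] at h4
    exact h4.symm
  have hv1 : (1 : ZMod k).val = 1 := ZMod.val_one k
  have hvm : ((-1 : ZMod k).val : ZMod p) = (k : ZMod p) - 1 := by
    rw [ZMod.neg_val, if_neg one_ne_zero, hv1, Nat.cast_sub (by omega), Nat.cast_one]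
  have hcast : ∀ a : ℕ, 0 < a → a ≤ k → ((a : ℕ) : ZMod p) ≠ 0 := by
    intro a ha hak h0
    rw [ZMod.natCast_eq_zero_iff] at h0
    have := Nat.le_of_dvd ha h0
    omega
  have hk0 : (k : ZMod p) ≠ 0 := hcast k (by omega) le_rfl
  have hk1 : (k : ZMod p) - 1 ≠ 0 := by
    have h0 := hcast (k - 1) (by omega) (by omega)
    rwa [Nat.cast_sub (by omega), Nat.cast_one] at h0
  have hk2 : (k : ZMod p) - 2 ≠ 0 := by
    have h0 := hcast (k - 2) (by omega) (by omega)
    rwa [Nat.cast_sub (by omega), Nat.cast_ofNat] at h0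
  have hpm : ∀ i : ZMod k, (1 : ZMod k) = i ^ 2 → i = 1 ∨ i = -1 := by
    intro i hi
    have : (i - 1) * (i + 1) = 0 := by linear_combination -hi
    rcases mul_eq_zero.1 this with h5 | h5
    · left; linear_combination h5
    · right; linear_combination h5
  obtain ⟨i, h3, h4⟩ := hmem 1
  obtain ⟨i', h5, h6⟩ := hmem (-1)
  rw [hs] at h3 h5
  rw [ht0] at h4 h6
  rw [hv1, Nat.cast_one] at h4
  rw [hvm] at h6
  rcases hpm i (by linear_combination h3) with rfl | rfl
  · rw [hv1, Nat.cast_one] at h4
    linear_combination h4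
  · rw [hvm] at h4
    rcases hpm i' (by linear_combination h5) with rfl | rfl
    · exfalso
      rw [hv1, Nat.cast_one] at h6
      have h7 : x * ((k : ZMod p) * ((k : ZMod p) - 2)) = 0 := by
        linear_combination ((k : ZMod p) - 1) * h6 - h4
      exact mul_ne_zero hx (mul_ne_zero hk0 hk2) h7
    · rw [hvm] at h6
      apply mul_right_cancel₀ hk1
      linear_combination h6

/-- A full orbit is not the short orbit. -/
lemma orbit_blk_ne_col (h : k < p) (h2 : k ≠ 2) {x : ZMod p} (hx : x ≠ 0) :
    orbit (blk h x) ≠ orbit (col h 0) := by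
  intro ho
  have h1 : blk h x ∈ orbit (col h 0) := ho ▸ self_mem_orbit _
  obtain ⟨t, ht⟩ := mem_orbit.1 h1
  have hk3 : 3 ≤ k := by
    have := hk.out.two_le
    omega
  have : Fact (1 < k) := ⟨by omega⟩
  have hmem : ∀ j : ZMod k, x * (j.val : ZMod p) = (crt h t).2 := by
    intro j
    have hj : (crt h).symm (j ^ 2, x * (j.val : ZMod p)) ∈ blk h x := by
      rw [mem_blk]; exact ⟨j, by simp⟩
    rw [← ht, mem_translate, mem_col] at hj
    simp only [map_sub, RingEquiv.apply_symm_apply, Prod.snd_sub] at hj
    linear_combination hj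
  have h3 := cast_val_inj h (mul_left_cancel₀ hx ((hmem 1).trans (hmem 0).symm))
  exact one_ne_zero h3

lemma card_of_mem_orbit {v : ℕ} [NeZero v] {B C : Finset (ZMod v)} (h : C ∈ orbit B) :
    C.card = B.card := by
  obtain ⟨t, rfl⟩ := mem_orbit.1 h
  exact card_translate t B

lemma not_hasDisjointRepresentatives (h : k < p) (h2 : k ≠ 2) :
    ¬ HasDisjointRepresentatives (design h) := by
  rintro ⟨R, hR, hdisj⟩
  have hk3 : 3 ≤ k := by
    have := hk.out.two_le
    omega
  -- the relevant block orbits
  set q : {x : ZMod p // x ≠ 0} ⊕ Fin (k - 1) → Finset (Finset (ZMod (k * p))) × ℕ := fun i =>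
    Sum.elim (fun x => (orbit (blk h x.1), 0)) (fun c => (orbit (col h 0), c.val)) i with hq
  have hqinj : Function.Injective q := by
    rintro (x | c) (x' | c') hxx
    · simp only [hq, Sum.elim_inl, Prod.mk.injEq, and_true] at hxx
      rw [Subtype.ext (orbit_blk_inj h h2 x.2 hxx)]
    · simp only [hq, Sum.elim_inl, Sum.elim_inr, Prod.mk.injEq] at hxx
      exact absurd hxx.1 (orbit_blk_ne_col h h2 x.2)
    · simp only [hq, Sum.elim_inl, Sum.elim_inr, Prod.mk.injEq] at hxx
      exact absurd hxx.1.symm (orbit_blk_ne_col h h2 x'.2)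
    · simp only [hq, Sum.elim_inr, Prod.mk.injEq, true_and] at hxx
      rw [Fin.ext hxx]
  have hqb : ∀ i, IsBlockOrbit (design h) (q i) := by
    rintro (x | c)
    · refine ⟨blk h x.1, blk_mem_design h x.2, rfl, ?_⟩
      exact Multiset.count_pos.2 (blk_mem_design h x.2)
    · have h3 : c.val < (design h).count (col h 0) := lt_of_lt_of_le c.2 (le_count_col h)
      refine ⟨col h 0, ?_, rfl, h3⟩
      exact Multiset.count_pos.1 (by omega)
  have hcard : ∀ i, (R (q i)).card = k := by
    rintro (x | c)
    · rw [card_of_mem_orbit (hR _ (hqb (Sum.inl x))), card_blk h x.2]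
    · rw [card_of_mem_orbit (hR _ (hqb (Sum.inr c))), card_col h]
  have hpd : ((univ : Finset ({x : ZMod p // x ≠ 0} ⊕ Fin (k - 1))) : Set _).PairwiseDisjoint (fun i => R (q i)) := by
    intro i _ j _ hij
    exact hdisj _ _ (hqb i) (hqb j) (fun he => hij (hqinj he))
  have h3 := card_biUnion hpd
  have h4 : ((univ : Finset ({x : ZMod p // x ≠ 0} ⊕ Fin (k - 1))).biUnion fun i => R (q i)).card ≤ k * p := by
    calc _ ≤ (univ : Finset (ZMod (k * p))).card := card_le_card (subset_univ _)
      _ = k * p := by rw [card_univ, ZMod.card]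
  rw [h3, sum_congr rfl (fun i _ => hcard i), sum_const, card_univ, smul_eq_mul,
    Fintype.card_sum, Fintype.card_fin] at h4
  have h5 : Fintype.card {x : ZMod p // x ≠ 0} = p - 1 := by
    rw [Fintype.card_subtype_compl, ZMod.card, Fintype.card_subtype_eq]
  rw [h5] at h4
  have h6 : p - 1 + (k - 1) = p + (k - 2) := by
    have := hp.out.two_le
    omega
  rw [h6, add_mul] at h4
  have h7 : 0 < (k - 2) * k := Nat.mul_pos (by omega) (by omega)
  have h8 : p * k = k * p := mul_comm _ _
  omega

end Construction

/-- **Main theorem.** (1) For every odd prime `k` and every prime `p > k` there is a cyclic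
`(k p, k, k - 1)`-design without a system of disjoint representatives of its block orbits.
(2) Hence Q1 has a negative answer: it is not true that for all `k`, `lam ≥ 1` with
`lam + 1 ≤ k ≤ 2 lam` every cyclic `(v, k, lam)`-design with `v` large has a system of disjoint
representatives. -/
theorem result :
    (∀ k p : ℕ, k.Prime → k ≠ 2 → p.Prime → k < p → ∀ _ : NeZero (k * p),
      ∃ 𝓑 : Multiset (Finset (ZMod (k * p))),
        IsCyclicDesign (k * p) k (k - 1) 𝓑 ∧ ¬ HasDisjointRepresentatives 𝓑) ∧
    ¬ (∀ k lam : ℕ, 1 ≤ lam → lam + 1 ≤ k → k ≤ 2 * lam → ∃ v₀ : ℕ, ∀ v ≥ v₀, ∀ _ : NeZero v,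
        ∀ 𝓑 : Multiset (Finset (ZMod v)), IsCyclicDesign v k lam 𝓑 →
          HasDisjointRepresentatives 𝓑) := by
  have h1 : ∀ k p : ℕ, k.Prime → k ≠ 2 → p.Prime → k < p → ∀ _ : NeZero (k * p),
      ∃ 𝓑 : Multiset (Finset (ZMod (k * p))),
        IsCyclicDesign (k * p) k (k - 1) 𝓑 ∧ ¬ HasDisjointRepresentatives 𝓑 := by
    intro k p hk h2 hp h _
    have : Fact k.Prime := ⟨hk⟩
    have : Fact p.Prime := ⟨hp⟩
    exact ⟨design h, isCyclicDesign h h2, not_hasDisjointRepresentatives h h2⟩
  refine ⟨h1, fun H => ?_⟩
  obtain ⟨v₀, hv⟩ := H 3 2 (by norm_num) (by norm_num) (by norm_num)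
  obtain ⟨p, hp, hpp⟩ := Nat.exists_infinite_primes (v₀ + 4)
  have hne : NeZero (3 * p) := ⟨by have := hpp.pos; omega⟩
  obtain ⟨𝓑, hB, hn⟩ := h1 3 p Nat.prime_three (by norm_num) hpp (by omega) hne
  exact hn (hv (3 * p) (by omega) hne 𝓑 hB)

end Pool.Agent.Results.MP_1dd1a8_co.ShortOrbits
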